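import Pool.Agent.Q269.SX.St

/-! # Project SX of helper269: job BWD -/

set_option autoImplicit false
set_option linter.all false

open scoped Classical
open Polynomial IsDedekindDomain Finset

namespace Pool.Agent.Q223.SX

open Pool.Agent.Q269.SX
open Pool.Agent.Y164.HG
open Pool.Agent.Y713.SE (hp Pw cl eq_hp)
open Pool.Agent.Y713.SE.Dat (au rs)
open Pool.Agent.Y164.PS (L ch el Fam ch_eq_zero_iff)
open Pool.Agent.Q269.SL (BoundedBy RepV)

theorem Tm_ne {n : ℕ} {K : Type} [Field K] (D : SD 2 n K) (m : Fin n → ℕ) (i : Fin n) : Tm D m i ≠ 0 := by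
  unfold Tm
  rw [prod_ne_zero_iff]
  intro k _
  apply pow_ne_zero
  split_ifs with h
  · apply inv_ne_zero
    apply mul_ne_zero D.hδ
    rw [prod_ne_zero_iff]
    intro j hj
    rw [sub_ne_zero]
    intro h1
    exact (mem_erase.1 hj).1 (D.he h1).symm
  · rw [sub_ne_zero]
    intro h1
    exact h (D.he h1).symm

/-- back from the adjusted cocycle -/
theorem triv_back {n : ℕ} {K : Type} [Field K] (D : SD 2 n K) {E : Type} [Field E] [Algebra K E]
    {F Ω : Type} [Field F] [Algebra K F] [Field Ω] [Algebra K Ω] [Algebra F Ω] [IsScalarTower K F Ω]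
    {χ χ' : (E ≃ₐ[K] E) → Fin n → ℕ} {Q : ClassGroup (D.base E).A}
    (hχ' : ∀ σ, cl ((D.base E).PT (χ' σ)) = cl ((D.base E).PT (χ σ)) / (D.mC (au σ) Q / Q))
    (h : D.Triv F Ω (fun σ => cl ((D.base E).PT (χ' σ)))) :
    D.Triv F Ω (fun σ => cl ((D.base E).PT (χ σ))) := by
  have h1 := h.div D Q⁻¹
  have h2 : (fun σ => cl ((D.base E).PT (χ' σ)) / (D.mC (au σ) Q⁻¹ / Q⁻¹)) =
      fun σ => cl ((D.base E).PT (χ σ)) := by
    funext σ
    rw [hχ' σ, map_inv]
    generalize D.mC (au σ) Q = a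
    generalize cl ((D.base E).PT (χ σ)) = b
    rw [inv_div_inv, div_div, div_mul_div_cancel, div_self', div_one]
  rw [← h2]
  exact h1

theorem t_BWD (h1 : S_LCT) (h2 : S_TRL) (h3 : S_RPC) (h4 : S_E1C) (h5 : S_E2C) (h6 : S_KDX) (h7 : S_ADJ) :
    S_BWD := by
  intro k K _ _ _ _ _ n a N H ι _ T _ hR D0 hδ he σ hcl E _ _ _ _ p _ Ω _ _ _ _ _ _ _ w x0 hsol
  obtain ⟨hE1, hE2⟩ := hsol
  have hm1 : IsSquare (-1 : K) := by
    have h := (H.hm.map (C : k →+* k[X])).map (algebraMap k[X] K)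
    rwa [map_neg, map_neg, map_one, map_one] at h
  have hexr : ∀ c : F2, ∃ r : k, r ≠ 0 ∧ ch r = c := by
    intro c
    have hc : ∀ c : F2, c = 0 ∨ c = 1 := by decide
    rcases hc c with rfl | rfl
    · exact ⟨1, one_ne_zero, ch_one⟩
    · obtain ⟨r, hr⟩ := FiniteField.exists_nonsquare H.hk
      have hr0 : r ≠ 0 := by
        rintro rfl
        exact hr (IsSquare.zero)
      refine ⟨r, hr0, ?_⟩
      rcases hc (ch r) with h | h
      · exact absurd ((ch_eq_zero_iff hr0).1 h) hr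
      · exact h
  have hcast : ∀ c : F2, ((c.val : ℕ) : F2) = c := by decide
  have hmi : ∀ i, ∃ m : K, IsRep (RR a T) m (x0.1 i) (uu H.p H.q w i) := by
    intro i
    obtain ⟨r, hr0, hr⟩ := hexr (x0.1 i)
    have h := isRep_el (K := K) (R := RR a T) hr0 (fun x => (uu H.p H.q w i x).val)
    exact ⟨_, h.congr hr (fun x => hcast _)⟩
  choose mi hrep using hmi
  have hmi0 : ∀ i, mi i ≠ 0 := fun i => (hrep i).ne hR
  obtain ⟨χ, kd, hc, hkd⟩ := h6 n K D0 E mi hmi0
  refine ⟨χ, hc, ⟨kd, mi, hmi0, hkd, hrep⟩, ?_⟩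
  have hadj : ∀ mv : Fin n → ℕ, ∃ (Q : ClassGroup (D0.base E).A) (χ' : (E ≃ₐ[K] E) → Fin n → ℕ)
      (kd' : D0.KD χ'),
      (∀ τ, cl ((D0.base E).PT (χ' τ)) = cl ((D0.base E).PT (χ τ)) / (D0.mC (au τ) Q / Q)) ∧
      ∀ i j, ∃ z : K, z ≠ 0 ∧ kd'.d i j = z ^ 2 * (mi i * mi j * (Tm D0 mv i * Tm D0 mv j)) := by
    intro mv
    obtain ⟨Q, χ', hQ, hχ', hc'⟩ := D0.exists_adj (p := p) mv hc
    obtain ⟨kd'⟩ := D0.exists_KD hc'
    refine ⟨Q, χ', kd', hχ', fun i j => ?_⟩
    obtain ⟨x, hx, e1⟩ := h7 n K D0 E hm1 mv χ χ' kd kd' Q hQ hχ' i j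
    obtain ⟨z, hz, e2⟩ := hkd i j
    refine ⟨x / z, div_ne_zero hx hz, ?_⟩
    rw [e1, e2, div_pow]
    field_simp
  intro v
  have ι₀ : E →ₐ[K] Ω v := IsSepClosed.lift
  by_cases hv : ∀ x, RR a T x ∉ v.asIdeal
  · -- no bad prime
    apply h1 k K H.hk H.hm n H.hn D0 v ?_ ?_ E (Ω v) p ι₀ χ kd mi hmi0 ?_ ?_ ?_
    · rw [hδ]
      exact val_twist_one (fun x => hv (Sum.inl x))
    · intro i
      rw [he]
      exact v.valuation_le_one (a i)
    · intro i j
      exact (h3 k K _ (RR a T) hR H.hk).1 _ _ _ ((hrep i).mul (hrep j)) |>.2 v hv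
    · intro i j hij
      by_cases h : i = j
      · subst h
        exact ⟨algebraMap K _ (mi i), by rw [map_mul, sq]⟩
      · rw [he, he, val_sub_one H (fun s => hv (Sum.inr s)) h] at hij
        exact absurd hij (lt_irrefl _)
    · intro i j
      obtain ⟨z, hz, e⟩ := hkd i j
      refine ⟨z⁻¹, inv_ne_zero hz, ?_⟩
      rw [e]
      field_simp
  · push Not at hv
    obtain ⟨x, hx⟩ := hv
    rcases x with x | s
    · have hvx : v = hp (RR a T (Sum.inl x)) (hR.irr (Sum.inl x)) := eq_hp _ hx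
      subst hvx
      obtain ⟨mv, hmv⟩ : ∃ mv : Fin n → ℕ, ∀ i, (mv i : F2) = (w.1 x).1 i :=
        ⟨fun i => ((w.1 x).1 i).val, fun i => hcast _⟩
      obtain ⟨Q, χ', kd', hχ', hz⟩ := hadj mv
      apply triv_back D0 hχ'
      apply h2 n K D0 E _ _ p ι₀ χ' kd' 1 0 monic_one (one_dvd _) (fun i => by rw [eval_one]; exact one_ne_zero)
      intro i j
      obtain ⟨z, hz0, e⟩ := hz i j
      obtain ⟨y, hy⟩ := h4 k K n a N H ι T hR D0 hδ he σ w x0 mi hrep x mv hmv (hE1 x) i j
      refine ⟨algebraMap K _ z * y, ?_, ?_⟩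
      · apply mul_ne_zero
        · exact (_root_.map_ne_zero _).2 hz0
        · rintro rfl
          rw [zero_pow two_ne_zero, _root_.map_eq_zero] at hy
          exact mul_ne_zero (mul_ne_zero (hmi0 i) (hmi0 j)) (mul_ne_zero (Tm_ne D0 mv i) (Tm_ne D0 mv j)) hy
      · rw [eval_one, eval_one, mul_one, mul_one, e, map_mul, map_pow, hy, mul_pow]
    · have hvx : v = hp (RR a T (Sum.inr s)) (hR.irr (Sum.inr s)) := eq_hp _ hx
      subst hvx
      set r := (w.2 s).val with hr
      have hrc : (r : F2) = w.2 s := hcast _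
      obtain ⟨hsq, hpw⟩ := h5 k K n a N H ι T hR D0 hδ he σ hcl w x0 mi hrep s r hrc (hE2 s)
      set mv : Fin n → ℕ := fun l => if l = H.q s then r else 0 with hmv
      obtain ⟨Q, χ', kd', hχ', hz⟩ := hadj mv
      apply triv_back D0 hχ'
      apply h1 k K H.hk H.hm n H.hn D0 _ ?_ ?_ E (Ω _) p ι₀ χ' kd' (fun i => mi i * Tm D0 mv i) ?_ ?_ ?_ ?_
      · rw [hδ]
        exact val_twist_one fun x => RR_notMem hR (x := Sum.inr s) (y := Sum.inl x) Sum.inl_ne_inr
      · intro i
        rw [he]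
        exact HeightOneSpectrum.valuation_le_one _ (a i)
      · intro i
        exact mul_ne_zero (hmi0 i) (Tm_ne D0 mv i)
      · intro i j
        have h := hpw i j
        have e : mi i * Tm D0 mv i * (mi j * Tm D0 mv j) = mi i * mi j * (Tm D0 mv i * Tm D0 mv j) := by ring
        rw [e]
        exact h
      · intro i j hij
        have e : ∀ i j, mi i * Tm D0 mv i * (mi j * Tm D0 mv j) = mi i * mi j * (Tm D0 mv i * Tm D0 mv j) := by
          intro i j
          ring
        by_cases h : i = j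
        · subst h
          exact ⟨algebraMap K _ (mi i * Tm D0 mv i), by rw [map_mul, sq]⟩
        · by_cases h8 : i = H.p s ∧ j = H.q s
          · obtain ⟨rfl, rfl⟩ := h8
            rw [e]
            exact hsq
          · by_cases h9 : i = H.q s ∧ j = H.p s
            · obtain ⟨rfl, rfl⟩ := h9
              obtain ⟨z, hz'⟩ := hsq
              refine ⟨z, ?_⟩
              rw [← hz']
              congr 1
              ring
            · rw [he, he] at hij
              have h10 : (hp (RR a T (Sum.inr s)) (hR.irr (Sum.inr s))).valuation K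
                  (algebraMap k[X] K (a i) - algebraMap k[X] K (a j)) = 1 :=
                val_sub_node H s h h8 h9
              rw [h10] at hij
              exact absurd hij (lt_irrefl _)
      · intro i j
        obtain ⟨z, hz0, e⟩ := hz i j
        refine ⟨z, hz0, ?_⟩
        rw [e]
        ring

end Pool.Agent.Q223.SX
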