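import Pool.Agent.Q269.SX.StR

/-!
# Project SX, job KDR: the order of the kernel of any family
-/

set_option autoImplicit false
set_option linter.all false

open scoped Classical
open Finset Polynomial

namespace Pool.Agent.Q223.SX

open Pool.Agent.Q269.SX
open Pool.Agent.Q269.GR (F2 cf hv own Irn Dn pr Fr xi ph fp Om rt Pfam)
open Pool.Agent.Q269.GJ (W0 lap eqn Kn KD GoodA AdmD xb am Exd Ip EQ1 EQ2)
open Pool.Agent.Y164.PS (L Fam)
open Pool.Agent.Y164.HG (Geo Del Tau QQ EW AT BT V Dat kc e2 Symp om FF dg)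

section reindex

variable {W : Type} [AddCommGroup W] [Module F2 W] [Symp W] {ι ι' τ : Type} [Fintype ι] [Fintype ι'] [Fintype τ]

theorem dg_reindex (D : Dat W τ) (e : ι ≃ ι') (d' : ι' → F2) (w : V W ι' τ) :
    dg D (fun i => d' (e i)) ((fun i => w.1 (e i), w.2) : V W ι τ) = dg D d' w := by
  unfold dg
  congr 1
  exact Equiv.sum_comp e (fun i => d' i • w.1 i)

theorem FF_reindex (D : Dat W τ) (e : ι ≃ ι') (A' : ι' → ι' → F2) (B' : ι' → τ → F2) (d' : ι' → F2)
    (w w' : V W ι' τ) :
    FF D (fun i j => A' (e i) (e j)) (fun i s => B' (e i) s) (fun i => d' (e i))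
      ((fun i => w.1 (e i), w.2) : V W ι τ) ((fun i => w'.1 (e i), w'.2) : V W ι τ) = FF D A' B' d' w w' := by
  unfold FF
  have h1 : ∑ i, ∑ j, A' (e i) (e j) * (om (w.1 (e j)) (w'.1 (e i)) + om (w.1 (e i)) (w'.1 (e i))) =
      ∑ i, ∑ j, A' i j * (om (w.1 j) (w'.1 i) + om (w.1 i) (w'.1 i)) := by
    rw [← Equiv.sum_comp e]
    refine sum_congr rfl fun i _ => ?_
    exact Equiv.sum_comp e (fun j => A' (e i) j * (om (w.1 j) (w'.1 (e i)) + om (w.1 (e i)) (w'.1 (e i))))
  have h2 := Equiv.sum_comp e (fun i => ∑ s, B' i s * (om (w.1 i) (D.t s) * om (w'.1 i) (D.t s) +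
    w.2 s * om (D.t s) (w'.1 i) + w'.2 s * om (w.1 i) (D.t s)))
  have h3 := Equiv.sum_comp e (fun i => d' i * om (D.ks (w.1 i)) (w'.1 i))
  simp only [h1, h2, h3]

theorem kc_reindex (D : Dat W τ) (e : ι ≃ ι') (A' : ι' → ι' → F2) (B' : ι' → τ → F2) (d' : ι' → F2) :
    kc D (fun i j => A' (e i) (e j)) (fun i s => B' (e i) s) (fun i => d' (e i)) = kc D A' B' d' := by
  unfold kc
  symm
  let E : V W ι' τ ≃ V W ι τ :=
    { toFun := fun w => (fun i => w.1 (e i), w.2)
      invFun := fun w => (fun i => w.1 (e.symm i), w.2)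
      left_inv := by
        intro w
        ext i <;> simp
      right_inv := by
        intro w
        ext i <;> simp }
  have hE : ∀ w, E w = (fun i => w.1 (e i), w.2) := fun _ => rfl
  refine Nat.card_congr (E.subtypeEquiv fun w => ?_)
  rw [hE, dg_reindex D e d' w]
  refine and_congr_right fun _ => ?_
  constructor
  · intro h w' hw'
    obtain ⟨v, rfl⟩ := E.surjective w'
    rw [hE] at hw' ⊢
    rw [dg_reindex D e d' v] at hw'
    rw [FF_reindex D e A' B' d' w v]
    exact h v hw'
  · intro h w' hw'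
    rw [← FF_reindex D e A' B' d' w w']
    apply h
    rw [dg_reindex D e d' w']
    exact hw'

end reindex

theorem add_eq_zero_F2 {x y : F2} (h : x + y = 0) : x = y := by
  revert x y; decide

theorem t_KDR (h : Pool.Agent.Q269.GR.S_PRD) : S_KDR := by
  intro k _ _ n hn a N H
  obtain ⟨p1, p2, p3, p4, p5, -⟩ := h k (Del a) H.del_ne
  refine ⟨?_, ?_⟩
  · intro ι _ T hF
    have hP : Pfam (Del a) T :=
      { mon := fun i => hF.mon (Sum.inl i)
        irr := fun i => hF.irr (Sum.inl i)
        inj := fun i j hij => Sum.inl_injective (hF.inj (a₁ := Sum.inl i) (a₂ := Sum.inl j) hij)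
        cop := by
          intro i hd
          have hm : T i ∈ Pool.Agent.Y164.HG.bpF a := H.mem.2 ⟨hF.mon (Sum.inl i), hF.irr (Sum.inl i), hd⟩
          have := hF.inj (a₁ := Sum.inl i) (a₂ := Sum.inr ⟨T i, hm⟩) rfl
          cases this }
    obtain ⟨q1, q2⟩ := p1 ι T hP
    set D := ∏ i, T i with hD
    have hmem : ∀ i, T i ∈ pr D := by
      intro i
      rw [q1]
      exact mem_image_of_mem _ (mem_univ _)
    let e : ι ≃ Ip D := Equiv.ofBijective (fun i => ⟨T i, hmem i⟩) (by
      constructor
      · intro i j hij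
        exact hP.inj (congrArg Subtype.val hij)
      · rintro ⟨P, hPm⟩
        have h1 := hPm
        rw [q1] at h1
        obtain ⟨i, -, hi⟩ := mem_image.1 h1
        exact ⟨i, Subtype.ext hi⟩)
    have he : ∀ i, (e i).1 = T i := fun _ => rfl
    have hs : ∀ s, sgD H D s = ∑ i, BT (QQ a) T i s + H.comb.gg s := by
      intro s
      unfold sgD
      congr 1
      exact (Equiv.sum_comp e (fun P : Ip D => L P.1 (QQ a s))).symm
    refine ⟨q2, hs, ?_⟩
    intro σ hσ
    have hσ' : σ = sgD H D := by
      funext s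
      rw [hs]
      have := hσ s
      rw [add_assoc] at this
      exact add_eq_zero_F2 this
    subst hσ'
    unfold kD
    exact kc_reindex (H.dat (sgD H D)) e (AT fun P : Ip D => P.1) (BT (QQ a) fun P : Ip D => P.1)
      (fun P : Ip D => (P.1.natDegree : F2))
  · intro m D hD
    obtain ⟨q1, q2, q3⟩ := p2 m D hD
    have hP := p3 m D hD
    refine ⟨?_, ?_, ?_⟩
    · refine ⟨?_, ?_, ?_⟩
      · rintro (P | s)
        · exact hP.mon P
        · exact H.fam.mon s
      · rintro (P | s)
        · exact hP.irr P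
        · exact H.fam.irr s
      · rintro (P | s) (P' | s') hPP
        · exact congrArg Sum.inl (hP.inj hPP)
        · exfalso
          apply hP.cop P
          have : P.1 = QQ a s' := hPP
          rw [this]
          exact (H.mem.1 s'.2).2.2
        · exfalso
          apply hP.cop P'
          have : QQ a s = P'.1 := hPP
          rw [← this]
          exact (H.mem.1 s.2).2.2
        · exact congrArg Sum.inr (H.fam.inj hPP)
    · exact (Finset.prod_coe_sort (pr D) (fun P => P)).trans q1
    · rw [← q2]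
      exact Finset.sum_coe_sort (pr D) (fun P => P.natDegree)

end Pool.Agent.Q223.SX
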